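import Pool.Agent.Y598.CG.Final

/-!
# Cayley graphs and the recognition of vertex-transitivity

There are two non-isomorphic Cayley graphs of valency at most `6` of one group of order
`O(k log k)` which neither the Weisfeiler-Leman method nor the invertible-map tests of dimension
`k` distinguish. The disjoint union of two copies of the first graph is vertex-transitive, the
disjoint union of the two graphs is not, and these two graphs are not distinguished either. So in
both problems the dimension `Ω(n / log n)` is needed for graphs with `n` vertices.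
-/

set_option autoImplicit false

namespace Pool.Agent.Results.MP_128e7d_lc.CayleyGraphsWLDimension

open SimpleGraph Pool.Agent.W185.SRG Pool.Agent.Y598.IM

/-- **Cayley graphs and vertex-transitivity need almost linear dimension.** -/
theorem result (k : ℕ) (hk : 1 ≤ k) :
    ∃ (Γ : Type) (_ : Group Γ) (_ : Fintype Γ) (S S' : Set Γ),
      Fintype.card Γ ≤ 419904 * (k * (Nat.log 2 k + 1)) ∧ S.ncard ≤ 6 ∧ S'.ncard ≤ 6 ∧
      IsEmpty (mulCayley S ≃g mulCayley S') ∧
      (∀ j ≤ k, WLEquivalent j (mulCayley S) (mulCayley S') ∧
        Indist 2 j (mulCayley S).Adj [] (mulCayley S').Adj []) ∧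
      (∀ x y, ∃ φ : (mulCayley S ⊕g mulCayley S) ≃g (mulCayley S ⊕g mulCayley S), φ x = y) ∧
      (¬ ∀ x y, ∃ φ : (mulCayley S ⊕g mulCayley S') ≃g (mulCayley S ⊕g mulCayley S'),
        φ x = y) ∧
      ∀ j ≤ k, WLEquivalent j (mulCayley S ⊕g mulCayley S) (mulCayley S ⊕g mulCayley S') ∧
        Indist 2 j (mulCayley S ⊕g mulCayley S).Adj [] (mulCayley S ⊕g mulCayley S').Adj [] :=
  Pool.Agent.Y598.CG.cg_main k hk

end Pool.Agent.Results.MP_128e7d_lc.CayleyGraphsWLDimension
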