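import Pool.Agent.Y598.Circ.Main

/-!
# The Weisfeiler-Leman dimension of circulant graphs is at least linear in `log n`

There is a constant `C` such that for every `k` there are two non-isomorphic circulant graphs on
the same number `n ≤ 2 ^ (C * k)` of vertices that the `k`-dimensional Weisfeiler-Leman method
does not distinguish.
-/

set_option autoImplicit false

namespace Pool.Agent.Results.MP_128e7d_lc.CirculantWLDimension

open Pool.Agent.W185.SRG

/-- The Weisfeiler-Leman dimension of circulant graphs is unbounded, and at least linear in the
logarithm of the number of vertices. -/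
theorem result : ∃ C : ℕ, ∀ k : ℕ, 1 ≤ k →
    ∃ (n : ℕ) (_ : NeZero n) (S T : Set (ZMod n)),
      n ≤ 2 ^ (C * k) ∧
      IsEmpty (SimpleGraph.circulantGraph S ≃g SimpleGraph.circulantGraph T) ∧
      WLEquivalent k (SimpleGraph.circulantGraph S) (SimpleGraph.circulantGraph T) :=
  Pool.Agent.Y598.Circ.main

end Pool.Agent.Results.MP_128e7d_lc.CirculantWLDimension
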