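import Pool.Agent.Y545.GI6

set_option autoImplicit false

/-!
# Graph isomorphism on classes of graphs that contain flipped star or clique crossings

Both questions (is graph isomorphism in P, is it NP-complete) have the same answer for all graphs
and for every class of graphs that contains, as induced subgraphs, flipped star or clique
`r`-crossings of all orders, for some `r ≥ 1`.

By the theorem of Dreier, Mählmann and Toruńczyk (Flip-breakability: a combinatorial dichotomy for
monadically dependent graph classes, STOC 2024) a hereditary class that is not monadically dependent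
contains such crossings, or flipped half graph crossings or comparability grids, of all orders. The
latter contain arbitrarily large half graphs. So the theorem applies to every hereditary class that is
edge-stable (does not contain arbitrarily large half graphs, as semi-induced subgraphs) but not
monadically stable.

Definitions: `Vx`, `arc`, `crossing`, `IsFlip`, `In` are in `Pool/Agent/Y545/Mon.lean`, `Crossings`
in `Pool/Agent/Y545/GI4.lean`, `matr` (adjacency matrix) in `Pool/Agent/Y545/GI5.lean`, `code` and
`GraphIso` in `Pool/Agent/Y545/GI6.lean`; polynomial time is Mathlib's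
`Turing.TM2ComputableInPolyTime` (`PolyTime`, `InP`, `InNP`, `NPHard` in `Pool/Agent/NPC`).
-/

namespace Pool.Agent.Results.MP_128e7d_lc.CrossingClasses

open Pool.Agent.NPC Pool.Agent.NPC.Y545GI
open Pool.Agent.Y545.GI Pool.Agent.Y545.Mon

/-- Some polynomial-time algorithm is right about all pairs of graphs with the property `𝒟`. -/
def EasyOn (𝒟 : (n : ℕ) → SimpleGraph (Fin n) → Prop) : Prop :=
  ∃ V : List Bool → List Bool, PolyTime V ∧
    ∀ (n m : ℕ) (G : SimpleGraph (Fin n)) (H : SimpleGraph (Fin m)), 𝒟 n G → 𝒟 m H →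
      (Nonempty (G ≃g H) ↔ V (code G H) = [true])

/-- Every language in `NP` is polynomial-time many-one reducible to the isomorphism of graphs with
the property `𝒟`. -/
def HardOn (𝒟 : (n : ℕ) → SimpleGraph (Fin n) → Prop) : Prop :=
  ∀ L : Set (List Bool), InNP L → ∃ f : List Bool → List Bool, PolyTime f ∧
    ∀ x, ∃ (n m : ℕ) (G : SimpleGraph (Fin n)) (H : SimpleGraph (Fin m)),
      f x = code G H ∧ 𝒟 n G ∧ 𝒟 m H ∧ (x ∈ L ↔ Nonempty (G ≃g H))

/-- Let `𝒞` be a class of finite graphs that contains, for some `r ≥ 1` and for every `n`, a flipped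
star `r`-crossing or a flipped clique `r`-crossing of order `n` as an induced subgraph, and let
`In 𝒞` be the class of the induced subgraphs of members of `𝒞`. Then graph isomorphism is
polynomial-time many-one reducible to the isomorphism of graphs in `In 𝒞`. So graph isomorphism is in
`P` if and only if this is true for the graphs in `In 𝒞`, and graph isomorphism is `NP`-hard if and
only if the isomorphism of graphs in `In 𝒞` is. -/
theorem result (𝒞 : (n : ℕ) → SimpleGraph (Fin n) → Prop) (h : Crossings 𝒞) :
    (∃ f : List Bool → List Bool, PolyTime f ∧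
      ∀ x, ∃ (n m : ℕ) (G : SimpleGraph (Fin n)) (H : SimpleGraph (Fin m)),
        f x = code G H ∧ In 𝒞 G ∧ In 𝒞 H ∧ (x ∈ GraphIso ↔ Nonempty (G ≃g H))) ∧
    (InP GraphIso ↔ EasyOn fun _ G => In 𝒞 G) ∧
    (NPHard GraphIso ↔ HardOn fun _ G => In 𝒞 G) := by
  have h1 := reduction h
  refine ⟨h1, ⟨?_, ?_⟩, ⟨?_, ?_⟩⟩
  · rintro ⟨V, hV, hV'⟩
    exact ⟨V, hV, fun n m G H _ _ => by rw [← hV', code_mem]⟩
  · rintro ⟨V, hV, hV'⟩
    obtain ⟨f, hf, hf'⟩ := h1
    refine ⟨fun x => V (f x), H642R2.TMSim.polyTime_comp hV hf, fun x => ?_⟩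
    obtain ⟨n, m, G, H, e, hG, hH, h2⟩ := hf' x
    show _ ↔ V (f x) = [true]
    rw [h2, e]
    exact hV' n m G H hG hH
  · intro h2 L hL
    obtain ⟨f, hf, hf'⟩ := h1
    obtain ⟨g, hg, hg'⟩ := h2 L hL
    refine ⟨fun x => f (g x), H642R2.TMSim.polyTime_comp hf hg, fun x => ?_⟩
    obtain ⟨n, m, G, H, e, hG, hH, h3⟩ := hf' (g x)
    exact ⟨n, m, G, H, e, hG, hH, (hg' x).trans h3⟩
  · intro h2 L hL
    obtain ⟨f, hf, hf'⟩ := h2 L hL
    refine ⟨f, hf, fun x => ?_⟩
    obtain ⟨n, m, G, H, e, -, -, h3⟩ := hf' x
    rw [h3, e, code_mem]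

end Pool.Agent.Results.MP_128e7d_lc.CrossingClasses
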