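import Pool.Agent.Y598.IM.Sp.TMain

/-!
# Individualization-refinement with the invertible-map test needs exponential time on tournaments

For every odd prime `p` there is a constant `C` such that for every `k ≥ 1` there are two
non-isomorphic tournaments `T`, `T'` with at most `C k` vertices such that the
individualization-refinement method with the `j`-dimensional invertible-map test over all fields of
characteristic different from `p` as refinement, for any `j ≤ k`, and with any cell selector which
is invariant for this test, has to visit `2 ^ k` nodes, although it is allowed to prune with all
invariants of the test and with all automorphisms: this is so for the comparison of `T` with `T'`,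
of `T'` with `T`, and for the search in the tree of `T` alone (canonical labelling,
automorphisms). Moreover the test of dimension `j ≤ k` alone does not distinguish `T` and `T'`.
In contrast to this the isomorphism of tournaments is decidable in time `n ^ O(log n)` (Babai and
Luks).

Proof idea. For a system of `m` linear equations `A x = b` over `F_p` with six variables each, a
tournament is formed from the pairs of a variable and a value and from two copies of the pairs of
an equation and a solution of it; the classes are ordered, an arc against this order indicates that
a solution of an equation and a value of one of its variables fit, and the two copies of the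
equations (one below, one above the variables) balance the scores, so that all isomorphisms
preserve the classes. Isomorphisms of the tournament for `b` to the one for `b'` are the solutions
of `A x = b' - b`. A random system with `m` a large multiple of the number `6 N` of the variables
has for some `b` no solution, its kernel has at most `3 ^ (2 k)` elements, but every combination of
at most `200 k` equations involves at least twice as many variables, so that on every set of
`w ≤ 100 k` variables there are `p ^ (w / 2)` locally consistent solutions. The local solutions form
a compatible family of cosets of `p`-groups; over a field in which `p` is invertible they can be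
glued to one invertible matrix which commutes with the class matrices, also after
individualization. So all local solutions lead to nodes which the test does not distinguish.
-/

set_option autoImplicit false

namespace Pool.Agent.Results.MP_128e7d_lc.IRInvertibleMapsTournaments

open Pool.Agent.Y598.IM Pool.Agent.Y598.IM.Sp

theorem result (p : ℕ) (hp : p.Prime) (h2 : p ≠ 2) :
    (∀ (V : Type) [Fintype V] (j : ℕ), 1 ≤ j →
      (∃ sel : (V → V → Prop) → List V → Set V, IsSelector p j sel) ∧
      ∀ sel : (V → V → Prop) → List V → Set V, IsSelector p j sel →
        ∀ A : V → V → Prop, ∃ v, IsLeaf sel A v) ∧
    ∃ C : ℕ, ∀ k : ℕ, 1 ≤ k →
      ∃ (V : Type) (_ : Fintype V) (T T' : V → V → Prop), IsTournament T ∧ IsTournament T' ∧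
        Fintype.card V ≤ C * k ∧
        (¬ ∃ φ : V ≃ V, ∀ x y, T x y ↔ T' (φ x) (φ y)) ∧
        ∀ X Y : V → V → Prop, (X = T ∨ X = T') → (Y = T ∨ Y = T') →
          ∀ j : ℕ, 1 ≤ j → j ≤ k →
            Indist p j X [] Y [] ∧
            ∀ sel : (V → V → Prop) → List V → Set V, IsSelector p j sel →
              ∀ (v : List V) (E : Finset (List V)), IsLeaf sel X v →
                Explores p j sel X v Y E → 2 ^ k ≤ E.card :=
  ⟨fun _ _ _ hj => ⟨exists_isSelector hj, fun _ hsel A => exists_leaf hj hsel A⟩,
    _, fun k hk => t_main p hp h2 k hk⟩

end Pool.Agent.Results.MP_128e7d_lc.IRInvertibleMapsTournaments
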